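import Pool.Agent.GTO.StmtsB

/-! Squad GTO (MP_122998_co), row EXI: the construction. -/

namespace Pool.Agent.GTO.H46

open Finset
open scoped Classical

theorem exi (hCrv : CrvStmt) (hZs3 : Zs3Stmt) : ExiStmt := by
  intro n hn
  have : NeZero n := ⟨by omega⟩
  obtain ⟨f, hfi, hcol⟩ := hCrv n hn
  have hz := hZs3 n hn
  set P : Finset (EuclideanSpace ℝ (Fin 2)) := univ.image f with hP
  refine ⟨P, ?_, ?_⟩
  · rw [hP, Finset.card_image_of_injective _ hfi, Finset.card_univ, ZMod.card]
  · set F : Finset (Finset (ZMod n)) :=
      (univ.powersetCard 3).filter fun S : Finset (ZMod n) => ∑ x ∈ S, x = 0 with hF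
    have hT : T3 P = ((F.image fun S => S.image f :
        Finset (Finset (EuclideanSpace ℝ (Fin 2)))) : Set (Finset (EuclideanSpace ℝ (Fin 2)))) := by
      ext S
      rw [Finset.mem_coe, Finset.mem_image]
      constructor
      · rintro ⟨hSP, hSc, hScol, -⟩
        rw [hP, Finset.subset_image_iff] at hSP
        obtain ⟨S', -, rfl⟩ := hSP
        rw [Finset.card_image_of_injective _ hfi] at hSc
        refine ⟨S', ?_, rfl⟩
        rw [hF, Finset.mem_filter, Finset.mem_powersetCard]
        refine ⟨⟨Finset.subset_univ _, hSc⟩, ?_⟩
        obtain ⟨i, j, k, hij, hik, hjk, rfl⟩ := Finset.card_eq_three.1 hSc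
        have h1 : Collinear ℝ {f i, f j, f k} := by
          have h2 : (((({i, j, k} : Finset (ZMod n)).image f :
              Finset (EuclideanSpace ℝ (Fin 2)))) : Set (EuclideanSpace ℝ (Fin 2))) =
              {f i, f j, f k} := by
            rw [Finset.coe_image]
            simp only [Finset.coe_insert, Finset.coe_singleton, Set.image_insert_eq,
              Set.image_singleton]
          rw [h2] at hScol
          exact hScol
        have h3 := (hcol i j k hij hjk (Ne.symm hik)).1 h1
        rw [Finset.sum_insert (by
          rw [Finset.mem_insert, Finset.mem_singleton]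
          push Not
          exact ⟨hij, hik⟩), Finset.sum_insert (by
          rw [Finset.mem_singleton]
          exact hjk), Finset.sum_singleton, ← add_assoc]
        exact h3
      · rintro ⟨S', hS', rfl⟩
        rw [hF, Finset.mem_filter, Finset.mem_powersetCard] at hS'
        obtain ⟨⟨-, hSc⟩, hsum⟩ := hS'
        obtain ⟨i, j, k, hij, hik, hjk, rfl⟩ := Finset.card_eq_three.1 hSc
        rw [Finset.sum_insert (by
          rw [Finset.mem_insert, Finset.mem_singleton]
          push Not
          exact ⟨hij, hik⟩), Finset.sum_insert (by
          rw [Finset.mem_singleton]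
          exact hjk), Finset.sum_singleton, ← add_assoc] at hsum
        have h2 : (((({i, j, k} : Finset (ZMod n)).image f :
            Finset (EuclideanSpace ℝ (Fin 2)))) : Set (EuclideanSpace ℝ (Fin 2))) =
            {f i, f j, f k} := by
          rw [Finset.coe_image]
          simp only [Finset.coe_insert, Finset.coe_singleton, Set.image_insert_eq,
            Set.image_singleton]
        have h1 : Collinear ℝ {f i, f j, f k} := (hcol i j k hij hjk (Ne.symm hik)).2 hsum
        refine ⟨?_, ?_, ?_, ?_⟩
        · rw [hP]
          exact Finset.image_subset_image (Finset.subset_univ _)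
        · rw [Finset.card_image_of_injective _ hfi]
          exact hSc
        · rw [h2]
          exact h1
        · intro p hp hpc
          rw [hP, Finset.mem_image] at hp
          obtain ⟨l, -, rfl⟩ := hp
          rw [h2] at hpc
          by_contra hl
          have hlne : l ≠ i ∧ l ≠ j ∧ l ≠ k := by
            refine ⟨?_, ?_, ?_⟩
            · rintro rfl
              exact hl (Finset.mem_image_of_mem f (by simp))
            · rintro rfl
              exact hl (Finset.mem_image_of_mem f (by simp))
            · rintro rfl
              exact hl (Finset.mem_image_of_mem f (by simp))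
          have h4 : Collinear ℝ {f i, f j, f l} := by
            refine hpc.subset ?_
            intro x hx
            simp only [Set.mem_insert_iff, Set.mem_singleton_iff] at hx ⊢
            tauto
          have h5 := (hcol i j l hij (Ne.symm hlne.2.1) hlne.1).1 h4
          apply hlne.2.2
          have h6 : i + j + l = i + j + k := by rw [h5, hsum]
          exact add_left_cancel h6
    rw [hT, Set.ncard_coe_finset, Finset.card_image_of_injective _ (Finset.image_injective hfi)]
    exact hz

end Pool.Agent.GTO.H46
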