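import Pool.Agent.GTO.StmtsB

/-! Squad GTO (MP_122998_co), row LN3: at most three zeros of the cubic on a line. -/

namespace Pool.Agent.GTO.H46

open Finset

theorem ip_comb2 (w u v : V) (s t : ℝ) : ip w (s • u + t • v) = s * ip w u + t * ip w v := by
  simp only [ip, Pi.add_apply, Pi.smul_apply, smul_eq_mul]
  ring

theorem ln3 (hLnf : LnfStmt) : Ln3Stmt := by
  intro c w hNL hw κ s p hp hpp
  by_contra hcard
  have h4 : 4 ≤ s.card := by omega
  obtain ⟨t, hts, htc⟩ := Finset.exists_subset_card_eq h4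
  set e := t.equivFinOfCardEq htc with he
  set f : Fin 4 → κ := fun i => ((e.symm i : t) : κ) with hf
  have hfs : ∀ i, f i ∈ s := fun i => hts (e.symm i).2
  have hfi : ∀ i j, i ≠ j → f i ≠ f j := by
    intro i j hij h
    exact hij (e.symm.injective (Subtype.ext h))
  obtain ⟨q, hq⟩ := hLnf.1 c w (fun i => p (f i)) hw
    (fun i => ⟨(hp _ (hfs i)).2, (hp _ (hfs i)).1⟩)
    (fun i j hij => hpp _ (hfs i) _ (hfs j) (hfi i j hij))
  have h01 : cr (p (f 0)) (p (f 1)) ≠ 0 := hpp _ (hfs 0) _ (hfs 1) (hfi 0 1 (by decide))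
  obtain ⟨a, b, hab⟩ := hNL _ _ h01
  apply hab
  rw [hq, ip_comb2, (hp _ (hfs 0)).2, (hp _ (hfs 1)).2]
  ring

end Pool.Agent.GTO.H46
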