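import Pool.Agent.GTO.StmtsB

/-! Squad GTO (MP_122998_co), row OFF: a further point on a line with two points of `QQ` is not on
the cubic. -/

namespace Pool.Agent.GTO.H46

open Finset
open scoped Classical

theorem off (hBas : BasStmt) : OffStmt := by
  intro ι _ a c G _ φ H hC i hi j hj hij q hq hqm hzero
  unfold QQ at hi hj hq
  rw [Finset.mem_filter] at hi hj hq
  unfold ln at hqm
  rw [Finset.mem_filter] at hqm
  have hiN := hi.2.1
  have hjN := hj.2.1
  have hqi : q ≠ i := by
    rintro rfl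
    exact hq hi
  have hqj : q ≠ j := by
    rintro rfl
    exact hq hj
  have hdt : dt (a i) (a j) (a q) = 0 := hqm.2
  have hq0 : a q ≠ 0 := by
    intro h0
    apply hC.pi q i hqi
    rw [h0]
    funext k
    fin_cases k <;> simp [cr]
  by_cases hg : grd c (a q) = 0
  · have hs : Sg c (a q) := ⟨hq0, hzero, hg⟩
    refine hC.sng.line (a q) (a i) (a j) hs hiN.2.1 hjN.2.1 (hC.pi q i hqi) (hC.pi q j hqj)
      (hC.pi i j hij) ?_
    rw [(hBas.1 (a q) (a i) (a j)).2.1]
    exact hdt
  · have hn : Ns c (a q) := ⟨hq0, hzero, hg⟩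
    have hsum := (hC.grp.col (a i) (a j) (a q) hiN hjN hn (hC.pi i j hij)
      (hC.pi j q (Ne.symm hqj)) (hC.pi q i hqi)).1 hdt
    apply hq
    refine ⟨Finset.mem_univ q, hn, ?_⟩
    have he : φ (a q) = -φ (a i) - φ (a j) := by
      have h2 : φ (a q) = -(φ (a i) + φ (a j)) := by
        rw [eq_neg_iff_add_eq_zero, add_comm]
        exact hsum
      rw [h2]
      abel
    rw [he]
    exact hC.clo _ hi.2.2 _ hj.2.2

end Pool.Agent.GTO.H46
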