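import Pool.Agent.GTO.StmtsB

/-! Squad GTO (MP_122998_co), row SGL: Sylvester-Gallai from Melchior. -/

namespace Pool.Agent.GTO.H46

open Finset
open scoped Classical

theorem sgl (hBas : BasStmt) (hMel : MelStmt) : SglStmt := by
  intro ι _ a hPI hSpn
  obtain ⟨h3, hsum⟩ := hMel ι a hPI hSpn
  have hnn : 0 ≤ ∑ σ ∈ topes a, (((walls a σ).card : ℤ) - 3) := by
    refine Finset.sum_nonneg ?_
    intro σ hσ
    have := h3 σ hσ
    have h : (3 : ℤ) ≤ ((walls a σ).card : ℤ) := by exact_mod_cast this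
    linarith
  have hpos : 0 < ∑ ℓ ∈ lns a, (6 - 2 * (ℓ.card : ℤ)) := by linarith
  obtain ⟨ℓ, hℓ, hℓp⟩ := Finset.exists_lt_of_sum_lt
    (s := lns a) (f := fun _ => (0 : ℤ)) (g := fun ℓ => 6 - 2 * (ℓ.card : ℤ)) (by simpa using hpos)
  have hc : ℓ.card ≤ 2 := by
    have h : (2 : ℤ) * (ℓ.card : ℤ) < 6 := by
      linarith [hℓp]
    have h' : 2 * ℓ.card < 6 := by exact_mod_cast h
    omega
  unfold lns at hℓ
  rw [Finset.mem_image] at hℓ
  obtain ⟨⟨i, j⟩, hij, rfl⟩ := hℓ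
  rw [Finset.mem_filter] at hij
  have hne : i ≠ j := hij.2
  refine ⟨i, j, hne, ?_⟩
  have hm := (hBas.2.2.2.2.2 ι a hPI).2.1 i j hne
  have hsub : ({i, j} : Finset ι) ⊆ ln a i j := by
    intro x hx
    rw [Finset.mem_insert, Finset.mem_singleton] at hx
    rcases hx with rfl | rfl
    · exact hm.1
    · exact hm.2
  have hcard : ({i, j} : Finset ι).card = 2 := Finset.card_pair hne
  exact (Finset.eq_of_subset_of_card_le hsub (by rw [hcard]; exact hc)).symm

end Pool.Agent.GTO.H46
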